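import Pool.Agent.H.MP_a22eb7_al.E

set_option autoImplicit false

namespace Pool.Agent.Results.MP_a22eb7_al.Char0

theorem result (M : Type) [Monoid M] (K : Type) [Field K] [CharZero K]
    (h : ∀ a b : MonoidAlgebra K M, a * b = 1 → b * a = 1)
    (n : ℕ) (A B : Matrix (Fin n) (Fin n) (MonoidAlgebra K M)) (hAB : A * B = 1) : B * A = 1 :=
  Pool.Agent.H.MP_a22eb7_al.char0 (Pool.Agent.H.MP_a22eb7_al.cb h) hAB

end Pool.Agent.Results.MP_a22eb7_al.Char0
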